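import Pool.Agent.Helper21.W4.St1

/-!
# Project W4, module Sw: the class is invariant under exchanges of coordinates
-/

set_option autoImplicit false

namespace Pool.Agent.Helper70.W4

open Pool.Agent.Helper21.W4 Finset

theorem hSw : StSw := by
  intro B h1 h2 h3 c1 c2 c3 H
  have e12 := H.pp.e12
  have e13 := H.pp.e13
  have bd := H.pp.bd
  have s1 := H.s1
  have e23 : ∀ p q r, q < h2 p r ↔ r < h3 p q := fun p q r => (e12 p q r).symm.trans (e13 p q r)
  constructor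
  · refine ⟨⟨?_, ?_, ?_, H.pp.n2, H.pp.n1, H.pp.n3⟩, H.g2, H.g1, H.g3, ?_, ?_,
      H.o21, H.o12, H.o23, H.o32, H.o13, H.o31⟩
    · intro p q r
      exact (e12 q p r).symm
    · intro p q r
      exact e23 q p r
    · intro p q r h
      have := bd q p r ((e12 q p r).2 h)
      exact ⟨this.2.1, this.1, this.2.2⟩
    · intro p q r
      have h := s1 q p r
      rw [e12 q p r] at h
      rw [h]
      have h0 := e12 q p 0
      constructor
      · rintro ⟨a, b, c, d⟩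
        exact ⟨h0.2 a, c, b, fun ⟨x, y, z⟩ => d ⟨y, x, z⟩⟩
      · rintro ⟨a, b, c, d⟩
        exact ⟨h0.1 a, c, b, fun ⟨x, y, z⟩ => d ⟨y, x, z⟩⟩
    · rcases H.gen with ⟨a, b, c⟩ | ⟨a, b, c⟩
      · exact Or.inl ⟨(e12 c1 c2 0).2 a, c, b⟩
      · exact Or.inr ⟨b, a, c⟩
  · refine ⟨⟨?_, ?_, ?_, H.pp.n1, H.pp.n3, H.pp.n2⟩, H.g1, H.g3, H.g2, ?_, ?_,
      H.o13, H.o31, H.o12, H.o21, H.o32, H.o23⟩
    · intro p q r
      exact e13 p r q
    · intro p q r
      exact e12 p r q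
    · intro p q r h
      have := bd p r q h
      exact ⟨this.1, this.2.2, this.2.1⟩
    · intro p q r
      have h := s1 p r q
      show p < h1 r q ↔ _
      rw [h]
      have h0 := e23 0 r q
      constructor
      · rintro ⟨a, b, c, d⟩
        exact ⟨b, a, h0.2 c, fun ⟨x, y, z⟩ => d ⟨x, z, y⟩⟩
      · rintro ⟨a, b, c, d⟩
        exact ⟨b, a, h0.1 c, fun ⟨x, y, z⟩ => d ⟨x, z, y⟩⟩
    · rcases H.gen with ⟨a, b, c⟩ | ⟨a, b, c⟩
      · exact Or.inl ⟨b, a, (e23 0 c2 c3).2 c⟩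
      · exact Or.inr ⟨a, c, b⟩

end Pool.Agent.Helper70.W4
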